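import Pool.Agent.helper67.RG.Spec

set_option autoImplicit false

namespace Pool.Agent.RG.DWG

open Matrix Polynomial Pool.Agent.GO Pool.Agent.AR

universe u1 u2 u3

section

variable {F : Type u1} {Γ : Type u2} {m : Type u3} [Field F] [Group Γ] [Fintype m]
  [DecidableEq m] (R : Γ →* Matrix m m F) (g : Γ)

private noncomputable def DWG_T (i : m) : (m → F) →ₗ[F] alg R where
  toFun x := ∑ j, x j • gen R i j
  map_add' x y := by
    simp only [Pi.add_apply, add_smul, Finset.sum_add_distrib]
  map_smul' c x := by
    simp only [Pi.smul_apply, smul_eq_mul, RingHom.id_apply, Finset.smul_sum, mul_smul]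

private lemma DWG_T_apply (i : m) (x : m → F) (h : Γ) :
    (DWG_T R i x).1 h = ∑ j, x j * R h i j := by
  show (∑ j, x j • gen R i j : alg R).1 h = _
  rw [sum_alg_apply]
  rfl

private lemma DWG_int (i : m) (x : m → F) :
    (rtA R g).toLinearMap (DWG_T R i x) = DWG_T R i (Matrix.toLin' (R g) x) := by
  apply Subtype.ext
  funext h
  show (DWG_T R i x).1 (h * g) = _
  rw [DWG_T_apply, DWG_T_apply, Matrix.toLin'_apply, map_mul]
  simp only [Matrix.mul_apply, Matrix.mulVec, dotProduct, Finset.mul_sum, Finset.sum_mul]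
  rw [Finset.sum_comm]
  refine Finset.sum_congr rfl fun j _ => Finset.sum_congr rfl fun k _ => ?_
  ring

private lemma DWG_pow (i : m) (χ : F) (k : ℕ) : ∀ x : m → F,
    (((rtA R g).toLinearMap - χ • (1 : Module.End F (alg R))) ^ k) (DWG_T R i x) =
      DWG_T R i (((Matrix.toLin' (R g) - χ • (1 : Module.End F (m → F))) ^ k) x) := by
  induction k with
  | zero => intro x; rfl
  | succ k ih =>
    intro x
    rw [pow_succ, pow_succ, Module.End.mul_apply, Module.End.mul_apply, ← ih]
    have e : ((rtA R g).toLinearMap - χ • (1 : Module.End F (alg R))) (DWG_T R i x) =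
        DWG_T R i ((Matrix.toLin' (R g) - χ • (1 : Module.End F (m → F))) x) := by
      rw [LinearMap.sub_apply, LinearMap.sub_apply, map_sub, DWG_int, LinearMap.smul_apply,
        LinearMap.smul_apply, map_smul, Module.End.one_apply, Module.End.one_apply]
    rw [e]

private lemma DWG_mem (i : m) (χ : F) (x : m → F)
    (hx : x ∈ Module.End.maxGenEigenspace (Matrix.toLin' (R g)) χ) :
    DWG_T R i x ∈ Module.End.maxGenEigenspace (rtA R g).toLinearMap χ := by
  rw [Module.End.mem_maxGenEigenspace] at hx ⊢
  obtain ⟨k, hk⟩ := hx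
  exact ⟨k, by rw [DWG_pow, hk, map_zero]⟩

end

theorem DWG (hGRD : GRD_stmt.{u1, max u1 u2}) (hLFD : LFD_stmt.{u1, u2, u3}) :
    DWG_stmt.{u1, u2, u3} := by
  intro F Γ m _ _ _ _ _ R g w hw
  obtain ⟨h1, h2, h3⟩ := hLFD R g
  obtain ⟨D, hD⟩ := hGRD (rtA R g).toLinearMap h1 w
  have hL : ∀ a b : alg R, D (a * b) = a • D b + b • D a := by
    intro a
    have ha : a ∈ ⨆ χ : F, Module.End.maxGenEigenspace (rtA R g).toLinearMap χ := by
      rw [h1]; trivial
    refine Submodule.iSup_induction (fun χ : F => Module.End.maxGenEigenspace (rtA R g).toLinearMap χ)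
      (motive := fun a => ∀ b : alg R, D (a * b) = a • D b + b • D a) ha ?_ ?_ ?_
    · intro χ a ha b
      have hb : b ∈ ⨆ χ : F, Module.End.maxGenEigenspace (rtA R g).toLinearMap χ := by
        rw [h1]; trivial
      refine Submodule.iSup_induction
        (fun χ : F => Module.End.maxGenEigenspace (rtA R g).toLinearMap χ)
        (motive := fun b => D (a * b) = a • D b + b • D a) hb ?_ ?_ ?_
      · intro ψ b hb
        by_cases hχ : χ = 0
        · subst hχ
          rw [h2, Submodule.mem_bot] at ha
          subst ha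
          rw [zero_mul, map_zero, smul_zero, zero_smul, add_zero]
        by_cases hψ : ψ = 0
        · subst hψ
          rw [h2, Submodule.mem_bot] at hb
          subst hb
          rw [mul_zero, map_zero, smul_zero, zero_smul, add_zero]
        rw [hD (χ * ψ) _ (h3 χ ψ a b ha hb), hD χ a ha, hD ψ b hb, hw χ ψ hχ hψ, add_smul,
          smul_eq_mul, smul_eq_mul, mul_smul_comm, mul_smul_comm, mul_comm b a, add_comm]
      · rw [mul_zero, map_zero, smul_zero, zero_smul, add_zero]
      · intro x y hx hy
        rw [mul_add, map_add, hx, hy, map_add, smul_add, add_smul]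
        abel
    · intro b
      rw [zero_mul, map_zero, zero_smul, smul_zero, add_zero]
    · intro x y hx hy b
      rw [add_mul, map_add, hx, hy, map_add, smul_add, add_smul]
      abel
  refine ⟨Derivation.mk' D hL, fun χ x hx i => ?_⟩
  show D (DWG_T R i x) = w χ • DWG_T R i x
  exact hD χ _ (DWG_mem R g i χ x hx)

end Pool.Agent.RG.DWG
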